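import Pool.Agent.RTF.Stmts

/-!
# Squad RTF, module MULF: products of series that are finite on cosets
-/

set_option autoImplicit false

namespace Pool.Agent.RTF.H47

open Pool.Agent.RTF Pool.Agent.CD

noncomputable section

theorem mulf (neu : NeuStmt) : MulfStmt := by
  intro G _ F B hB hc u v hu hv g
  have : B.Normal := hB
  have hfin := neu G F.o B hc (Function.support (F.co u)) (Function.support (F.co v)) (F.wo u)
    (F.wo v) (g : G ⧸ B)
  set C : Set (G ⧸ B) := {c : G ⧸ B | (∃ a ∈ Function.support (F.co u), (a : G ⧸ B) = c) ∧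
    ∃ a ∈ Function.support (F.co v), (a : G ⧸ B) = c⁻¹ * (g : G ⧸ B)} with hC
  have hb : (⋃ c ∈ C, Set.image2 (fun a b => a * b)
      {x | F.co u x ≠ 0 ∧ (Quotient.out c)⁻¹ * x ∈ B}
      {x | F.co v x ≠ 0 ∧ ((Quotient.out c)⁻¹ * g)⁻¹ * x ∈ B}).Finite :=
    hfin.biUnion fun c _ => Set.Finite.image2 _ (hu _) (hv _)
  refine hb.subset ?_
  rintro x ⟨hx, hgx⟩
  rw [F.co_mul] at hx
  obtain ⟨y, hy⟩ : ∃ y, F.co u y * F.co v (y⁻¹ * x) ≠ 0 := by
    by_contra h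
    push Not at h
    exact hx (finsum_eq_zero_of_forall_eq_zero h)
  have h1 : F.co u y ≠ 0 := left_ne_zero_of_mul hy
  have h2 : F.co v (y⁻¹ * x) ≠ 0 := right_ne_zero_of_mul hy
  have hxg : (x : G ⧸ B) = (g : G ⧸ B) := (QuotientGroup.eq.2 hgx).symm
  have hout : (Quotient.out (y : G ⧸ B))⁻¹ * y ∈ B := by
    rw [← QuotientGroup.eq]
    exact QuotientGroup.out_eq' _
  refine Set.mem_biUnion (x := (y : G ⧸ B)) ⟨⟨y, h1, rfl⟩, ⟨y⁻¹ * x, h2, ?_⟩⟩ ?_
  · rw [QuotientGroup.mk_mul, QuotientGroup.mk_inv, hxg]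
  · refine ⟨y, ⟨h1, hout⟩, y⁻¹ * x, ⟨h2, ?_⟩, by simp⟩
    rw [← QuotientGroup.eq]
    rw [QuotientGroup.mk_mul, QuotientGroup.mk_mul, QuotientGroup.mk_inv, QuotientGroup.mk_inv,
      hxg, QuotientGroup.out_eq']

end

end Pool.Agent.RTF.H47
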