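import Mathlib

/-!
# Squad RTF, module ORS, abstract part: common denominators from tiles
-/

set_option autoImplicit false

namespace Pool.Agent.RTF.H47

noncomputable section

/-- closed under the field operations -/
structure SubP {K : Type} [DivisionRing K] (Q : K → Prop) : Prop where
  zero : Q 0
  one : Q 1
  add : ∀ x y, Q x → Q y → Q (x + y)
  neg : ∀ x, Q x → Q (-x)
  mul : ∀ x y, Q x → Q y → Q (x * y)
  inv : ∀ x, Q x → Q x⁻¹

/-- the subfield of a predicate -/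
def SubP.sub {K : Type} [DivisionRing K] {Q : K → Prop} (h : SubP Q) : Subfield K where
  carrier := {x | Q x}
  mul_mem' {a b} ha hb := h.mul a b ha hb
  one_mem' := h.one
  add_mem' {a b} ha hb := h.add a b ha hb
  zero_mem' := h.zero
  neg_mem' {a} ha := h.neg a ha
  inv_mem' a ha := h.inv a ha

theorem SubP.mem_sub {K : Type} [DivisionRing K] {Q : K → Prop} (h : SubP Q) (x : K) :
    x ∈ h.sub ↔ Q x := Iff.rfl

/-- the data -/
structure Dat (K G : Type) [DivisionRing K] [Group G] where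
  s : G →* K
  P : K → Prop
  hP : SubP P
  M : Subgroup G
  nrm : ∀ m ∈ M, ∀ g, g * m * g⁻¹ ∈ M
  hM : ∀ m ∈ M, P (s m)
  hN : ∀ g k, P k → P (s g * k * s g⁻¹)
  hI : ∀ (A : Finset G) (c : G → K), (∀ a ∈ A, P (c a)) →
    (∀ a ∈ A, ∀ b ∈ A, a⁻¹ * b ∈ M → a = b) → ∑ a ∈ A, c a * s a = 0 → ∀ a ∈ A, c a = 0
  fol : ∀ E : Finset G, ∃ B B0 : Finset G, B0 ⊆ B ∧ B.card < 2 * B0.card ∧
    (∀ b ∈ B0, ∀ e ∈ E, ∃ b' ∈ B, b'⁻¹ * (b * e) ∈ M) ∧
    (∀ b ∈ B, ∀ b' ∈ B, b⁻¹ * b' ∈ M → b = b')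
  gen : ∀ Q : K → Prop, SubP Q → (∀ g, Q (s g)) → ∀ x, Q x

namespace Dat

variable {K G : Type} [DivisionRing K] [Group G] (D : Dat K G)

/-- the small division ring -/
abbrev K0 : Subfield K := D.hP.sub

/-- the finite sums -/
def IS (x : K) : Prop :=
  ∃ (A : Finset G) (c : G → K), (∀ a ∈ A, D.P (c a)) ∧ x = ∑ a ∈ A, c a * D.s a

theorem s_inv (g : G) : D.s g * D.s g⁻¹ = 1 := by
  rw [← map_mul, mul_inv_cancel, map_one]

theorem s_inv' (g : G) : D.s g⁻¹ * D.s g = 1 := by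
  rw [← map_mul, inv_mul_cancel, map_one]

theorem is_zero : D.IS 0 := ⟨∅, fun _ => 0, by simp, by simp⟩

theorem is_mono {k : K} (hk : D.P k) (g : G) : D.IS (k * D.s g) :=
  ⟨{g}, fun _ => k, fun _ _ => hk, by simp⟩

theorem is_s (g : G) : D.IS (D.s g) := by
  have h := D.is_mono D.hP.one g
  rwa [one_mul] at h

theorem is_one : D.IS 1 := by
  have h := D.is_s 1
  rwa [map_one] at h

open Classical in
theorem is_add {x y : K} (hx : D.IS x) (hy : D.IS y) : D.IS (x + y) := by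
  obtain ⟨A, c, hc, rfl⟩ := hx
  obtain ⟨A', c', hc', rfl⟩ := hy
  refine ⟨A ∪ A', fun a => (if a ∈ A then c a else 0) + (if a ∈ A' then c' a else 0),
    fun a _ => ?_, ?_⟩
  · refine D.hP.add _ _ ?_ ?_
    · split_ifs with h
      · exact hc a h
      · exact D.hP.zero
    · split_ifs with h
      · exact hc' a h
      · exact D.hP.zero
  · simp only [add_mul, ite_mul, zero_mul, Finset.sum_add_distrib]
    congr 1
    · rw [← Finset.sum_filter]
      refine Finset.sum_congr ?_ fun _ _ => rfl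
      ext a
      simp only [Finset.mem_filter, Finset.mem_union]
      tauto
    · rw [← Finset.sum_filter]
      refine Finset.sum_congr ?_ fun _ _ => rfl
      ext a
      simp only [Finset.mem_filter, Finset.mem_union]
      tauto

theorem is_sum {ι : Type} (t : Finset ι) (x : ι → K) (h : ∀ i ∈ t, D.IS (x i)) :
    D.IS (∑ i ∈ t, x i) := by
  classical
  induction t using Finset.induction_on with
  | empty =>
    rw [Finset.sum_empty]
    exact D.is_zero
  | insert i t hi ih =>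
    rw [Finset.sum_insert hi]
    exact D.is_add (h i (Finset.mem_insert_self i t))
      (ih fun j hj => h j (Finset.mem_insert_of_mem hj))

theorem mono_mul (k : K) (a b : G) (k' : K) :
    k * D.s a * (k' * D.s b) = k * (D.s a * k' * D.s a⁻¹) * D.s (a * b) := by
  rw [map_mul]
  calc k * D.s a * (k' * D.s b) = k * D.s a * k' * (D.s a⁻¹ * D.s a) * D.s b := by
        rw [D.s_inv']
        simp only [mul_assoc, one_mul]
    _ = k * (D.s a * k' * D.s a⁻¹) * (D.s a * D.s b) := by simp only [mul_assoc]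

theorem is_mul {x y : K} (hx : D.IS x) (hy : D.IS y) : D.IS (x * y) := by
  obtain ⟨A, c, hc, rfl⟩ := hx
  obtain ⟨A', c', hc', rfl⟩ := hy
  rw [Finset.sum_mul_sum]
  refine D.is_sum _ _ fun a ha => D.is_sum _ _ fun b hb => ?_
  rw [mono_mul]
  exact D.is_mono (D.hP.mul _ _ (hc a ha) (D.hN a _ (hc' b hb))) _

theorem is_neg {x : K} (hx : D.IS x) : D.IS (-x) := by
  obtain ⟨A, c, hc, rfl⟩ := hx
  refine ⟨A, fun a => - c a, fun a ha => D.hP.neg _ (hc a ha), ?_⟩
  simp only [neg_mul, Finset.sum_neg_distrib]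

/-- the span of the group elements in `A` over the small division ring -/
def V (A : Finset G) : Submodule D.K0 K := Submodule.span D.K0 (Set.range fun a : A => D.s a)

theorem mem_V {A : Finset G} {x : K} :
    x ∈ D.V A ↔ ∃ c : G → K, (∀ a, D.P (c a)) ∧ x = ∑ a ∈ A, c a * D.s a := by
  unfold V
  rw [Submodule.mem_span_range_iff_exists_fun]
  constructor
  · rintro ⟨c, rfl⟩
    classical
    refine ⟨fun a => if h : a ∈ A then (c ⟨a, h⟩ : K) else 0, fun a => ?_, ?_⟩
    · dsimp only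
      split_ifs with h
      · exact (c ⟨a, h⟩).2
      · exact D.hP.zero
    · rw [← Finset.sum_coe_sort A
        (fun a => (if h : a ∈ A then (c ⟨a, h⟩ : K) else 0) * D.s a)]
      refine Finset.sum_congr rfl fun a _ => ?_
      rw [dif_pos a.2]
      rfl
  · rintro ⟨c, hc, rfl⟩
    refine ⟨fun a => ⟨c a, hc a⟩, ?_⟩
    rw [← Finset.sum_coe_sort A (fun a => c a * D.s a)]
    rfl

theorem is_of_V {A : Finset G} {x : K} (h : x ∈ D.V A) : D.IS x := by
  obtain ⟨c, hc, rfl⟩ := D.mem_V.1 h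
  exact ⟨A, c, fun a _ => hc a, rfl⟩

theorem mono_mem_V {A : Finset G} {k : K} (hk : D.P k) {a : G} (ha : a ∈ A) :
    k * D.s a ∈ D.V A := by
  have h : D.s a ∈ D.V A := Submodule.subset_span ⟨⟨a, ha⟩, rfl⟩
  exact (D.V A).smul_mem (⟨k, hk⟩ : D.K0) h

/-- right multiplication -/
def mr (t : K) : K →ₗ[D.K0] K where
  toFun x := x * t
  map_add' x y := add_mul x y t
  map_smul' k x := mul_assoc (k : K) x t

theorem mr_apply (t x : K) : D.mr t x = x * t := rfl

theorem move {E B B0 : Finset G} (hB : ∀ b ∈ B0, ∀ e ∈ E, ∃ b' ∈ B, b'⁻¹ * (b * e) ∈ D.M)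
    {A : Finset G} (hA : A ⊆ E) {c : G → K} (hc : ∀ a ∈ A, D.P (c a)) {x : K} (hx : x ∈ D.V B0) :
    x * ∑ a ∈ A, c a * D.s a ∈ D.V B := by
  obtain ⟨k, hk, rfl⟩ := D.mem_V.1 hx
  rw [Finset.sum_mul_sum]
  refine Submodule.sum_mem _ fun b hb => Submodule.sum_mem _ fun e he => ?_
  rw [mono_mul]
  obtain ⟨b', hb', hm⟩ := hB b hb e (hA he)
  have e1 : b * e = (b' * (b'⁻¹ * (b * e)) * b'⁻¹) * b' := by group
  have h1 := D.hM _ (D.nrm _ hm b')
  rw [e1, map_mul, ← mul_assoc]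
  exact D.mono_mem_V (D.hP.mul _ _ (D.hP.mul _ _ (hk b) (D.hN b _ (hc e he))) h1) hb'

theorem finrank_V_le (A : Finset G) : Module.finrank D.K0 (D.V A) ≤ A.card := by
  have h := finrank_range_le_card (R := D.K0) (fun a : A => D.s a)
  rw [Fintype.card_coe] at h
  exact h

instance (A : Finset G) : Module.Finite D.K0 (D.V A) :=
  Module.Finite.span_of_finite _ (Set.finite_range _)

theorem finrank_V {A : Finset G} (hA : ∀ a ∈ A, ∀ b ∈ A, a⁻¹ * b ∈ D.M → a = b) :
    Module.finrank D.K0 (D.V A) = A.card := by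
  have hli : LinearIndependent D.K0 (fun a : A => D.s a) := by
    rw [Fintype.linearIndependent_iff]
    intro g hg i
    classical
    set c : G → K := fun a => if h : a ∈ A then (g ⟨a, h⟩ : K) else 0 with hcdef
    have h1 : ∀ a ∈ A, D.P (c a) := by
      intro a ha
      rw [hcdef]
      simp only [dif_pos ha]
      exact (g ⟨a, ha⟩).2
    have h2 : ∑ a ∈ A, c a * D.s a = 0 := by
      rw [← hg, ← Finset.sum_coe_sort A (fun a => c a * D.s a)]
      refine Finset.sum_congr rfl fun a _ => ?_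
      rw [hcdef]
      simp only [dif_pos a.2]
      rfl
    have h3 := D.hI A c h1 hA h2 i i.2
    rw [hcdef] at h3
    simp only [dif_pos i.2] at h3
    exact Subtype.ext h3
  have h := finrank_span_eq_card hli
  rw [Fintype.card_coe] at h
  exact h

theorem ore {t t' : K} (ht : D.IS t) (ht' : D.IS t') (h0 : t ≠ 0) (h0' : t' ≠ 0) :
    ∃ x y, D.IS x ∧ D.IS y ∧ x * t = y * t' ∧ x * t ≠ 0 := by
  classical
  obtain ⟨A, c, hc, rfl⟩ := ht
  obtain ⟨A', c', hc', rfl⟩ := ht'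
  obtain ⟨B, B0, hB0, hcard, hmv, hinj⟩ := D.fol (A ∪ A')
  set t := ∑ a ∈ A, c a * D.s a with htdef
  set t' := ∑ a ∈ A', c' a * D.s a with htdef'
  have hinj0 : ∀ b ∈ B0, ∀ b' ∈ B0, b⁻¹ * b' ∈ D.M → b = b' :=
    fun b hb b' hb' h => hinj b (hB0 hb) b' (hB0 hb') h
  have hi : ∀ r : K, r ≠ 0 → Module.finrank D.K0 ((D.V B0).map (D.mr r)) = B0.card := by
    intro r hr
    rw [← D.finrank_V hinj0]
    refine LinearEquiv.finrank_eq (Submodule.equivMapOfInjective (D.mr r) ?_ (D.V B0)).symm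
    intro x y hxy
    exact mul_right_cancel₀ hr hxy
  have hle : (D.V B0).map (D.mr t) ≤ D.V B := by
    rintro _ ⟨x, hx, rfl⟩
    exact D.move hmv Finset.subset_union_left hc hx
  have hle' : (D.V B0).map (D.mr t') ≤ D.V B := by
    rintro _ ⟨x, hx, rfl⟩
    exact D.move hmv Finset.subset_union_right hc' hx
  have hne : (D.V B0).map (D.mr t) ⊓ (D.V B0).map (D.mr t') ≠ ⊥ := by
    intro hbot
    have h1 := Submodule.finrank_sup_add_finrank_inf_eq ((D.V B0).map (D.mr t))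
      ((D.V B0).map (D.mr t'))
    rw [hbot, finrank_bot, hi t h0, hi t' h0'] at h1
    have h2 := Submodule.finrank_mono (sup_le hle hle')
    have h3 := D.finrank_V_le B
    omega
  obtain ⟨z, ⟨⟨x, hx, hxz⟩, ⟨y, hy, hyz⟩⟩, hz⟩ := Submodule.exists_mem_ne_zero_of_ne_bot hne
  refine ⟨x, y, D.is_of_V hx, D.is_of_V hy, ?_, ?_⟩
  · rw [D.mr_apply] at hxz hyz
    rw [hxz, hyz]
  · rw [D.mr_apply] at hxz
    rw [hxz]
    exact hz

/-- has a left denominator -/
def Q (x : K) : Prop := ∃ t, t ≠ 0 ∧ D.IS t ∧ D.IS (t * x)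

theorem ore2 {t t' : K} (ht : D.IS t) (ht' : D.IS t') (h0 : t ≠ 0) (h0' : t' ≠ 0) :
    ∃ x y, D.IS x ∧ D.IS y ∧ x ≠ 0 ∧ y ≠ 0 ∧ x * t = y * t' := by
  obtain ⟨x, y, hx, hy, he, hne⟩ := D.ore ht ht' h0 h0'
  refine ⟨x, y, hx, hy, left_ne_zero_of_mul hne, ?_, he⟩
  rw [he] at hne
  exact left_ne_zero_of_mul hne

theorem subQ : SubP D.Q where
  zero := ⟨1, one_ne_zero, D.is_one, by rw [mul_zero]; exact D.is_zero⟩
  one := ⟨1, one_ne_zero, D.is_one, by rw [mul_one]; exact D.is_one⟩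
  add := by
    rintro x x' ⟨t, h0, ht, hx⟩ ⟨t', h0', ht', hx'⟩
    obtain ⟨a, b, ha, hb, ha0, hb0, he⟩ := D.ore2 ht ht' h0 h0'
    refine ⟨a * t, mul_ne_zero ha0 h0, D.is_mul ha ht, ?_⟩
    rw [mul_add]
    refine D.is_add ?_ ?_
    · rw [mul_assoc]
      exact D.is_mul ha hx
    · rw [he, mul_assoc]
      exact D.is_mul hb hx'
  neg := by
    rintro x ⟨t, h0, ht, hx⟩
    refine ⟨t, h0, ht, ?_⟩
    rw [mul_neg]
    exact D.is_neg hx
  mul := by
    rintro x x' ⟨t, h0, ht, hx⟩ ⟨t', h0', ht', hx'⟩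
    by_cases hx0 : t * x = 0
    · have : x = 0 := by
        rcases mul_eq_zero.1 hx0 with h | h
        · exact absurd h h0
        · exact h
      refine ⟨t, h0, ht, ?_⟩
      rw [this, zero_mul, mul_zero]
      exact D.is_zero
    · obtain ⟨a, b, ha, hb, ha0, hb0, he⟩ := D.ore2 hx ht' hx0 h0'
      refine ⟨a * t, mul_ne_zero ha0 h0, D.is_mul ha ht, ?_⟩
      have e : a * t * (x * x') = b * (t' * x') := by
        calc a * t * (x * x') = a * (t * x) * x' := by simp only [mul_assoc]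
          _ = b * t' * x' := by rw [he]
          _ = _ := mul_assoc _ _ _
      rw [e]
      exact D.is_mul hb hx'
  inv := by
    rintro x ⟨t, h0, ht, hx⟩
    by_cases hx0 : x = 0
    · subst hx0
      rw [inv_zero]
      exact ⟨t, h0, ht, hx⟩
    · refine ⟨t * x, mul_ne_zero h0 hx0, hx, ?_⟩
      rw [mul_assoc, mul_inv_cancel₀ hx0, mul_one]
      exact ht

theorem den_one (x : K) : D.Q x := by
  refine D.gen D.Q D.subQ (fun g => ⟨1, one_ne_zero, D.is_one, ?_⟩) x
  rw [one_mul]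
  exact D.is_s g

theorem den (X : Finset K) : ∃ t, t ≠ 0 ∧ D.IS t ∧ ∀ x ∈ X, D.IS (t * x) := by
  classical
  induction X using Finset.induction_on with
  | empty => exact ⟨1, one_ne_zero, D.is_one, by simp⟩
  | insert x X hx ih =>
    obtain ⟨t, h0, ht, hX⟩ := ih
    obtain ⟨t', h0', ht', hx'⟩ := D.den_one x
    obtain ⟨a, b, ha, hb, ha0, hb0, he⟩ := D.ore2 ht ht' h0 h0'
    refine ⟨a * t, mul_ne_zero ha0 h0, D.is_mul ha ht, fun y hy => ?_⟩
    rcases Finset.mem_insert.1 hy with rfl | hy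
    · rw [he, mul_assoc]
      exact D.is_mul hb hx'
    · rw [mul_assoc]
      exact D.is_mul ha (hX y hy)

end Dat

end

end Pool.Agent.RTF.H47
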