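import Pool.Agent.RTF.Stmts
import Pool.Agent.Helper39_CD.Dom
import Pool.Agent.Helper47_RTF.OrsAbs

/-!
# Squad RTF, module ORS: common denominators
-/

set_option autoImplicit false

namespace Pool.Agent.RTF.H47

open Pool.Agent.RTF Pool.Agent.CD MulOpposite

noncomputable section

/-! ## The opposite data -/

section opp

variable {K G : Type} [DivisionRing K] [Group G] (D : Dat K G)

/-- the opposite homomorphism -/
def os : G →* Kᵐᵒᵖ where
  toFun g := op (D.s g⁻¹)
  map_one' := by rw [inv_one, map_one, op_one]
  map_mul' a b := by rw [mul_inv_rev, map_mul, op_mul]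

theorem os_apply (g : G) : os D g = op (D.s g⁻¹) := rfl

theorem sum_opp (A : Finset G) (c : G → Kᵐᵒᵖ) [DecidableEq G] :
    unop (∑ a ∈ A, c a * os D a) =
      ∑ b ∈ A.image (fun a => a⁻¹), (D.s b * unop (c b⁻¹) * D.s b⁻¹) * D.s b := by
  rw [Finset.sum_image fun a _ b _ h => inv_injective h]
  have e : unop (∑ a ∈ A, c a * os D a) = ∑ a ∈ A, unop (c a * os D a) :=
    map_sum (opAddEquiv (α := K)).symm _ _
  rw [e]
  refine Finset.sum_congr rfl fun a _ => ?_
  rw [unop_mul, os_apply, unop_op, mul_assoc, D.s_inv', mul_one, inv_inv]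

/-- the opposite data -/
def opp : Dat Kᵐᵒᵖ G where
  s := os D
  P x := D.P (unop x)
  hP :=
    { zero := D.hP.zero
      one := D.hP.one
      add := fun x y hx hy => D.hP.add _ _ hx hy
      neg := fun x hx => D.hP.neg _ hx
      mul := fun x y hx hy => D.hP.mul _ _ hy hx
      inv := fun x hx => D.hP.inv _ hx }
  M := D.M
  nrm := D.nrm
  hM m hm := D.hM _ (D.M.inv_mem hm)
  hN g k hk := by
    have h := D.hN g (unop k) hk
    change D.P (unop (os D g * k * os D g⁻¹))
    rw [unop_mul, unop_mul, os_apply, os_apply, unop_op, unop_op, inv_inv, ← mul_assoc]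
    exact h
  hI A c hc hinj h a ha := by
    classical
    have h1 : unop (∑ a ∈ A, c a * os D a) = 0 := by
      rw [h, unop_zero]
    rw [sum_opp] at h1
    have h2 := D.hI (A.image fun a => a⁻¹) (fun b => D.s b * unop (c b⁻¹) * D.s b⁻¹) ?_ ?_ h1
      a⁻¹ (Finset.mem_image_of_mem _ ha)
    · have h3 : unop (c a) = 0 := by
        simp only [inv_inv] at h2
        calc unop (c a) = D.s a * (D.s a⁻¹ * unop (c a) * D.s a) * D.s a⁻¹ := by
              rw [← mul_assoc, ← mul_assoc, D.s_inv, one_mul, mul_assoc, D.s_inv, mul_one]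
          _ = 0 := by rw [h2, mul_zero, zero_mul]
      exact (unop_eq_zero_iff _).1 h3
    · intro b hb
      obtain ⟨a', ha', rfl⟩ := Finset.mem_image.1 hb
      refine D.hN _ _ ?_
      rw [inv_inv]
      exact hc a' ha'
    · intro b hb b' hb' hm
      obtain ⟨x, hx, rfl⟩ := Finset.mem_image.1 hb
      obtain ⟨y, hy, rfl⟩ := Finset.mem_image.1 hb'
      have h4 : y⁻¹ * x ∈ D.M := by
        have h5 := D.nrm _ hm x⁻¹
        have e : x⁻¹ * ((x⁻¹)⁻¹ * y⁻¹) * (x⁻¹)⁻¹ = y⁻¹ * x := by group
        rwa [e] at h5
      rw [hinj y hy x hx h4]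
  fol := D.fol
  gen Q hQ hs x := by
    have h := D.gen (fun y => Q (op y))
      { zero := hQ.zero
        one := hQ.one
        add := fun x y hx hy => hQ.add _ _ hx hy
        neg := fun x hx => hQ.neg _ hx
        mul := fun x y hx hy => by
          rw [op_mul]
          exact hQ.mul _ _ hy hx
        inv := fun x hx => hQ.inv _ hx } (fun g => by
          have := hs g⁻¹
          rwa [os_apply, inv_inv] at this) (unop x)
    exact h

theorem is_opp {x : Kᵐᵒᵖ} (h : (opp D).IS x) : D.IS (unop x) := by
  classical
  obtain ⟨A, c, hc, rfl⟩ := h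
  change D.IS (unop (∑ a ∈ A, c a * os D a))
  rw [sum_opp]
  refine ⟨_, fun b => D.s b * unop (c b⁻¹) * D.s b⁻¹, fun b hb => ?_, rfl⟩
  obtain ⟨a, ha, rfl⟩ := Finset.mem_image.1 hb
  refine D.hN _ _ ?_
  rw [inv_inv]
  exact hc a ha

theorem den_r (X : Finset K) : ∃ t, t ≠ 0 ∧ D.IS t ∧ ∀ x ∈ X, D.IS (x * t) := by
  classical
  obtain ⟨t, h0, ht, hX⟩ := (opp D).den (X.image op)
  refine ⟨unop t, fun h => h0 ((unop_eq_zero_iff _).1 h), is_opp D ht, fun x hx => ?_⟩
  have h := is_opp D (hX (op x) (Finset.mem_image_of_mem _ hx))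
  rwa [unop_mul, unop_op] at h

end opp

/-! ## Series supported in a subgroup -/

section ser

variable {G : Type} [Group G] (F : SF G) (B : Subgroup G)

/-- supported in `B` -/
def Sup (u : F.U) : Prop := ∀ g, F.co u g ≠ 0 → g ∈ B

theorem sup_one : Sup F B 1 := by
  intro g hg
  rw [← map_one F.sg, F.co_sg] at hg
  by_cases h : g = 1
  · rw [h]
    exact B.one_mem
  · rw [if_neg h] at hg
    exact absurd rfl hg

theorem sup_mul {u v : F.U} (hu : Sup F B u) (hv : Sup F B v) : Sup F B (u * v) := by
  intro x hx
  rw [F.co_mul] at hx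
  obtain ⟨y, hy⟩ : ∃ y, F.co u y * F.co v (y⁻¹ * x) ≠ 0 := by
    by_contra h
    push Not at h
    exact hx (finsum_eq_zero_of_forall_eq_zero h)
  have h := B.mul_mem (hu y (left_ne_zero_of_mul hy)) (hv _ (right_ne_zero_of_mul hy))
  rwa [mul_inv_cancel_left] at h

theorem sup_inv {u : F.U} (hu : Sup F B u) : Sup F B u⁻¹ := by
  by_cases hu0 : u = 0
  · subst hu0
    rwa [inv_zero]
  have h1 : u * H39.resF F B u⁻¹ = 1 := by
    apply F.co_inj
    funext x
    rw [F.co_mul, H39.co_resF]
    by_cases hx : x ∈ B
    · rw [← mul_inv_cancel₀ hu0, F.co_mul]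
      refine finsum_congr fun y => ?_
      by_cases hy : F.co u y = 0
      · rw [hy, zero_mul, zero_mul]
      · have : y⁻¹ * x ∈ B := B.mul_mem (B.inv_mem (hu y hy)) hx
        unfold H39.cut
        rw [if_pos this]
    · have h2 : F.co (1 : F.U) x = 0 := by
        by_contra h
        exact hx (sup_one F B x h)
      rw [h2]
      refine finsum_eq_zero_of_forall_eq_zero fun y => ?_
      by_cases hy : F.co u y = 0
      · rw [hy, zero_mul]
      · have : y⁻¹ * x ∉ B := by
          intro h
          have h3 := B.mul_mem (hu y hy) h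
          rw [mul_inv_cancel_left] at h3
          exact hx h3
        unfold H39.cut
        rw [if_neg this, mul_zero]
  have h2 : u⁻¹ = H39.resF F B u⁻¹ :=
    (mul_left_cancel₀ hu0 (h1.trans (mul_inv_cancel₀ hu0).symm)).symm
  intro g hg
  rw [h2, H39.co_resF] at hg
  by_contra h
  unfold H39.cut at hg
  rw [if_neg h] at hg
  exact hg rfl

end ser

/-! ## The data of the module -/

theorem ors (fol : FolStmt) : OrsStmt := by
  intro G _ T F hF D j X
  have hP : SubP (D.InB (T.M j)) :=
    { zero := by
        intro g hg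
        rw [map_zero, map_zero] at hg
        exact absurd rfl hg
      one := by
        have h := sup_one F (T.M j)
        intro g hg
        rw [map_one] at hg
        exact h g hg
      add := by
        intro x y hx hy g hg
        rw [map_add, map_add] at hg
        by_cases h : F.co (D.p x) g = 0
        · refine hy g fun h2 => hg ?_
          rw [Pi.add_apply, h, h2, add_zero]
        · exact hx g h
      neg := by
        intro x hx g hg
        rw [map_neg, map_neg] at hg
        refine hx g fun h => hg ?_
        rw [Pi.neg_apply, h, neg_zero]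
      mul := by
        intro x y hx hy g hg
        rw [map_mul] at hg
        exact sup_mul F (T.M j) hx hy g hg
      inv := by
        intro x hx g hg
        rw [map_inv₀] at hg
        exact sup_inv F (T.M j) hx g hg }
  have hmul : ∀ (k : D.K) (g x : G), F.co (D.p (k * D.s g)) x = F.co (D.p k) (x * g⁻¹) := by
    intro k g x
    rw [map_mul, D.ps, H39.co_mul_sg]
  let Dt : Dat D.K G :=
    { s := D.s
      P := D.InB (T.M j)
      hP := hP
      M := T.M j
      nrm := fun m hm g => T.mem_conj j g m hm
      hM := by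
        intro m hm g hg
        rw [D.ps, F.co_sg] at hg
        by_cases h : g = m
        · rw [h]
          exact hm
        · rw [if_neg h] at hg
          exact absurd rfl hg
      hN := by
        intro g k hk x hx
        rw [hmul, map_mul, D.ps, H39.co_sg_mul] at hx
        have h := T.mem_conj j g _ (hk _ hx)
        have e : g * (g⁻¹ * (x * (g⁻¹)⁻¹)) * g⁻¹ = x := by group
        rwa [e] at h
      hI := by
        intro A c hc hinj h a ha
        have h1 : D.p (c a * D.s a) = 0 := by
          apply F.co_inj
          funext x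
          rw [map_zero, Pi.zero_apply]
          by_contra hx
          have hxa : x * a⁻¹ ∈ T.M j := by
            rw [hmul] at hx
            exact hc a ha _ hx
          have h2 : F.co (D.p (∑ b ∈ A, c b * D.s b)) x = 0 := by
            rw [h, map_zero, map_zero, Pi.zero_apply]
          rw [map_sum, map_sum, Finset.sum_apply, Finset.sum_eq_single a] at h2
          · exact hx h2
          · intro b hb hba
            by_contra hxb
            rw [hmul] at hxb
            have hxb' := hc b hb _ hxb
            apply hba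
            refine hinj b hb a ha ?_
            have h3 := (T.M j).mul_mem ((T.M j).inv_mem hxb') hxa
            have h4 := T.mem_conj j b⁻¹ _ h3
            have e : b⁻¹ * ((x * b⁻¹)⁻¹ * (x * a⁻¹)) * (b⁻¹)⁻¹ = a⁻¹ * b := by group
            rw [e] at h4
            have h5 := (T.M j).inv_mem h4
            rwa [mul_inv_rev, inv_inv] at h5
          · intro h3
            exact absurd ha h3
        have h2 : c a * D.s a = 0 := by
          apply D.p.injective
          rw [h1, map_zero]
        have h3 : D.s a ≠ 0 := by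
          intro h0
          have h4 : D.s a * D.s a⁻¹ = 1 := by rw [← map_mul, mul_inv_cancel, map_one]
          rw [h0, zero_mul] at h4
          exact zero_ne_one h4
        exact (mul_eq_zero.1 h2).resolve_right h3
      fol := by
        intro E
        obtain ⟨B, B0, K1, hne, hsub, hcard, hmv, hinj, -⟩ := fol G T j E (1 / 3) (by norm_num)
        refine ⟨B, B0, hsub, ?_, hmv, hinj⟩
        have h1 : (0 : ℝ) < B.card := by exact_mod_cast hne.card_pos
        have h2 : (B.card : ℝ) < 2 * B0.card := by linarith
        exact_mod_cast h2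
      gen := by
        intro Q hQ hs x
        have h1 : Subfield.closure (Set.range D.s) ≤ hQ.sub := by
          rw [Subfield.closure_le]
          rintro _ ⟨g, rfl⟩
          exact hs g
        rw [D.gen] at h1
        exact h1 (Subfield.mem_top x) }
  have hIS : ∀ x, Dt.IS x → D.InS (T.M j) x := fun x h => h
  obtain ⟨t, h0, ht, hX⟩ := Dt.den X
  obtain ⟨t', h0', ht', hX'⟩ := den_r Dt X
  exact ⟨⟨t, h0, hIS t ht, fun x hx => hIS _ (hX x hx)⟩,
    ⟨t', h0', hIS t' ht', fun x hx => hIS _ (hX' x hx)⟩⟩

end

end Pool.Agent.RTF.H47
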